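import Mathlib

set_option autoImplicit false

namespace Pool.Agent.H.MP_52dd64_co

open Finset

noncomputable def gam : ℝ :=
  sSup ((fun α : ℝ => α ^ 3 * (1 - α) ^ 3 + 3 * α ^ 4 * (1 - α) ^ 2) '' Set.Icc (0 : ℝ) 1)

lemma le_gam {t : ℝ} (h0 : 0 ≤ t) (h1 : t ≤ 1) : t ^ 3 * (1 - t) ^ 2 * (1 + 2 * t) ≤ gam := by
  have hb : BddAbove ((fun α : ℝ => α ^ 3 * (1 - α) ^ 3 + 3 * α ^ 4 * (1 - α) ^ 2) ''
      Set.Icc (0 : ℝ) 1) := (isCompact_Icc.image (by fun_prop)).bddAbove
  refine le_trans (le_of_eq (by ring)) (le_csSup hb ⟨t, ⟨h0, h1⟩, rfl⟩)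

lemma gam_ge : (7 / 100 : ℝ) ≤ gam := by
  have := le_gam (t := 2 / 3) (by norm_num) (by norm_num)
  norm_num at this
  linarith

def PP (a w x : ℝ) : ℝ := a ^ 2 * (a + 3 * w) * ((x + w) ^ 3 + 3 * a * x ^ 2)

lemma three_norm {a w : ℝ} (ha : 0 ≤ a) (hw : 0 ≤ w) (h : a + w ≤ 1) :
    PP a w (1 - a - w) ≤ gam := by
  have hK : IsCompact {p : ℝ × ℝ | 0 ≤ p.1 ∧ 0 ≤ p.2 ∧ p.1 + p.2 ≤ 1} := by
    refine (isCompact_Icc (a := ((0 : ℝ), (0 : ℝ))) (b := (1, 1))).of_isClosed_subset ?_ ?_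
    · exact (isClosed_le continuous_const continuous_fst).inter
        ((isClosed_le continuous_const continuous_snd).inter
          (isClosed_le (continuous_fst.add continuous_snd) continuous_const))
    · rintro ⟨p, q⟩ ⟨h1, h2, h3⟩
      simp only [Set.mem_Icc, Prod.mk_le_mk] at *
      refine ⟨⟨h1, h2⟩, by linarith, by linarith⟩
  obtain ⟨⟨p, q⟩, ⟨h1, h2, h3⟩, hmax⟩ := hK.exists_isMaxOn ⟨(a, w), ha, hw, h⟩
    (f := fun p : ℝ × ℝ => PP p.1 p.2 (1 - p.1 - p.2)) (by unfold PP; fun_prop)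
  refine le_trans (hmax (show (a, w) ∈ _ from ⟨ha, hw, h⟩)) ?_
  simp only at h1 h2 h3 ⊢
  have hm : ∀ a w : ℝ, 0 ≤ a → 0 ≤ w → a + w ≤ 1 → PP a w (1 - a - w) ≤ PP p q (1 - p - q) :=
    fun a w ha hw h => hmax (show (a, w) ∈ _ from ⟨ha, hw, h⟩)
  rcases h1.eq_or_lt with rfl | h1'
  · have := gam_ge
    unfold PP; simp; linarith
  rcases h2.eq_or_lt with rfl | h2'
  · refine le_trans (le_of_eq ?_) (le_gam h1 (by linarith))
    unfold PP; ring
  rcases h3.eq_or_lt with h3' | h3'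
  · refine le_trans (le_of_eq ?_) (le_gam h2 (by linarith))
    have : p = 1 - q := by linarith
    subst this
    unfold PP; ring
  obtain ⟨x, hx⟩ : ∃ x, x = 1 - p - q := ⟨_, rfl⟩
  have hx0 : 0 < x := by linarith
  have d0 : HasDerivAt (fun t : ℝ => t) 1 0 := hasDerivAt_id 0
  have l1 : IsLocalMax (fun t : ℝ => PP p (q + t) (x - t)) 0 := by
    have : Set.Ioo (-q) x ∈ nhds (0 : ℝ) := Ioo_mem_nhds (by linarith) hx0
    filter_upwards [this] with t ht
    have := hm p (q + t) h1 (by linarith [ht.1]) (by linarith [ht.2])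
    simp only [add_zero, sub_zero]
    rwa [show 1 - p - (q + t) = x - t by linarith, ← hx] at this
  have l2 : IsLocalMax (fun t : ℝ => PP (p + t) (q - t) x) 0 := by
    have : Set.Ioo (-p) q ∈ nhds (0 : ℝ) := Ioo_mem_nhds (by linarith) h2'
    filter_upwards [this] with t ht
    have := hm (p + t) (q - t) (by linarith [ht.1]) (by linarith [ht.2]) (by linarith)
    simp only [add_zero, sub_zero]
    rwa [show 1 - (p + t) - (q - t) = x by linarith, ← hx] at this
  have e1 := l1.hasDerivAt_eq_zero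
    ((((d0.const_add q).const_mul 3).const_add p |>.const_mul (p ^ 2)).mul
      ((((d0.const_sub x).add (d0.const_add q)).pow 3).add
        (((d0.const_sub x).pow 2).const_mul (3 * p))))
  have e2 := l2.hasDerivAt_eq_zero
    ((((d0.const_add p).pow 2).mul ((d0.const_add p).add ((d0.const_sub q).const_mul 3))).mul
      ((((d0.const_sub q).const_add x).pow 3).add
        (((d0.const_add p).const_mul 3).mul_const (x ^ 2))))
  simp only [Pi.add_apply, Pi.pow_apply, Pi.mul_apply, add_zero, sub_zero] at e1 e2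
  norm_num at e1 e2
  have f1 : (x + q) ^ 3 + 3 * p * x ^ 2 = 2 * p * x * (p + 3 * q) := by
    have : p ^ 2 * ((x + q) ^ 3 + 3 * p * x ^ 2 - 2 * p * x * (p + 3 * q)) = 0 := by
      linarith
    rcases mul_eq_zero.1 this with h | h
    · exact absurd h (by positivity)
    · linarith
  have f2 : q = 2 * x := by
    have : p ^ 2 * q * (p + 3 * q) * (q - 2 * x) = 0 := by
      rw [f1] at e2
      linarith
    rcases mul_eq_zero.1 this with h | h
    · exact absurd h (by positivity)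
    · linarith
  subst f2
  rw [← hx]
  unfold PP
  rw [f1]
  have f3 : 2 * p ^ 2 + 9 * p * x - 27 * x ^ 2 = 0 := by
    have : x * (2 * p ^ 2 + 9 * p * x - 27 * x ^ 2) = 0 := by linarith
    rcases mul_eq_zero.1 this with h | h
    · exact absurd h hx0.ne'
    · exact h
  have hp : p = 1 - 3 * x := by linarith
  subst hp
  have g1 : 197 / 1000 ≤ x := by nlinarith
  have g2 : x ≤ 198 / 1000 := by nlinarith
  have := gam_ge
  have b1 : (1 - 3 * x) ^ 3 ≤ (409 / 1000) ^ 3 := by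
    apply pow_le_pow_left₀ <;> linarith
  have b2 : (1 + 3 * x) ^ 2 ≤ (1594 / 1000) ^ 2 := by
    apply pow_le_pow_left₀ <;> linarith
  have b3 : (1 - 3 * x) ^ 3 * (1 + 3 * x) ^ 2 ≤ (409 / 1000) ^ 3 * (1594 / 1000) ^ 2 :=
    mul_le_mul b1 b2 (by positivity) (by positivity)
  have b4 : (1 - 3 * x) ^ 3 * (1 + 3 * x) ^ 2 * x ≤
      (409 / 1000) ^ 3 * (1594 / 1000) ^ 2 * (198 / 1000) :=
    mul_le_mul b3 g2 hx0.le (by positivity)
  norm_num at b4
  nlinarith

lemma three {a w b : ℝ} (ha : 0 ≤ a) (hw : 0 ≤ w) (hb : w ≤ b) :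
    (a ^ 3 + 3 * a ^ 2 * w) * (b ^ 3 + 3 * a * (b - w) ^ 2) ≤ gam * (a + b) ^ 6 := by
  rcases (show 0 ≤ a + b by linarith).eq_or_lt with h | h
  · have : a = 0 := by linarith
    subst this
    have := gam_ge
    simp; positivity
  · have := three_norm (a := a / (a + b)) (w := w / (a + b)) (by positivity) (by positivity)
      (by rw [← add_div, div_le_one h]; linarith)
    have e : PP (a / (a + b)) (w / (a + b)) (1 - a / (a + b) - w / (a + b)) =
        (a ^ 3 + 3 * a ^ 2 * w) * (b ^ 3 + 3 * a * (b - w) ^ 2) / (a + b) ^ 6 := by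
      unfold PP; field_simp; ring
    rwa [e, div_le_iff₀ (by positivity)] at this

def I1 (a b R B : ℝ) : Prop :=
  ∃ w, 0 ≤ w ∧ w ≤ b ∧ R ≤ a ^ 3 + 3 * a ^ 2 * w ∧ B ≤ b ^ 3 + 3 * a * (b - w) ^ 2

def Inv (a b R B : ℝ) : Prop := I1 a b R B ∨ I1 b a B R

lemma Inv.symm {a b R B : ℝ} (h : Inv a b R B) : Inv b a B R := Or.symm h

lemma Inv.step {a b R B : ℝ} (ha : 0 ≤ a) (h : Inv a b R B) :
    Inv (a + 1) b (R + 3 * a ^ 2 + 3 * a + 1) (B + 3 * b ^ 2) := by
  rcases h with ⟨w, h0, h1, h2, h3⟩ | ⟨w, h0, h1, h2, h3⟩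
  · by_cases c : 3 * w ≤ 2 * b
    · left
      obtain ⟨r, hr⟩ : ∃ r, r = a / (a + 1) := ⟨_, rfl⟩
      have r0 : 0 ≤ r := by rw [hr]; positivity
      have r1 : r ≤ 1 := by rw [hr, div_le_one (by linarith)]; linarith
      have r2 : r * (a + 1) = a := by rw [hr]; field_simp
      have r3 : r ^ 2 ≤ 1 := by nlinarith
      refine ⟨r ^ 2 * w, by positivity, by nlinarith, ?_, ?_⟩
      · have : (a + 1) ^ 2 * (r ^ 2 * w) = a ^ 2 * w := by
          rw [show (a + 1) ^ 2 * (r ^ 2 * w) = (r * (a + 1)) ^ 2 * w by ring, r2]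
        nlinarith
      · have k1 : w * (1 + r + r ^ 2) ≤ 2 * b := by nlinarith
        have k2 : 0 ≤ (1 - r) * (2 * b - w * (1 + r + r ^ 2)) :=
          mul_nonneg (by linarith) (by linarith)
        have k3 : 0 ≤ a * w * ((1 - r) * (2 * b - w * (1 + r + r ^ 2))) := by positivity
        have k4 : (a + 1) * (b - r ^ 2 * w) ^ 2 =
            (a + 1) * b ^ 2 - (r * (a + 1)) * (r * w * (2 * b - r ^ 2 * w)) := by ring
        rw [r2] at k4
        nlinarith
    · right
      have hb : 0 < b := by linarith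
      obtain ⟨u, hu⟩ : ∃ u, u = w / b := ⟨_, rfl⟩
      have u2 : w = u * b := by rw [hu]; field_simp
      have u0 : 2 / 3 ≤ u := by rw [hu, le_div_iff₀ hb]; linarith
      have u1 : u ≤ 1 := by rw [hu, div_le_one hb]; exact h1
      subst u2
      have k0 : 0 ≤ a * (1 - u) ^ 2 := by positivity
      have k1 : 0 ≤ a * (u * (2 - u)) := mul_nonneg ha (by nlinarith)
      refine ⟨a + 1 - a * (u * (2 - u)), by nlinarith, by linarith, by nlinarith, ?_⟩
      have k2 : 0 ≤ (1 - u) * (-u ^ 2 + 3 * u - 1) := mul_nonneg (by linarith) (by nlinarith)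
      have k3 : 0 ≤ b * a ^ 2 * u * ((1 - u) * (-u ^ 2 + 3 * u - 1)) := by
        have : 0 ≤ u := by linarith
        positivity
      nlinarith
  · right
    exact ⟨w + 1, by linarith, by linarith, by nlinarith, by nlinarith⟩

lemma Inv.bound {a b R B : ℝ} (ha : 0 ≤ a) (hb : 0 ≤ b) (hR : 0 ≤ R) (hB : 0 ≤ B)
    (h : Inv a b R B) : R * B ≤ gam * (a + b) ^ 6 := by
  rcases h with ⟨w, h0, h1, h2, h3⟩ | ⟨w, h0, h1, h2, h3⟩
  · exact (mul_le_mul h2 h3 hB (hR.trans h2)).trans (three ha h0 h1)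
  · rw [mul_comm, add_comm]
    exact (mul_le_mul h2 h3 hR (hB.trans h2)).trans (three hb h0 h1)

def EE : List Bool → ℕ
  | [] => 0
  | c :: l => EE l + if c then 2 * (l.length + 1) else 0

def TT : List Bool → ℕ
  | [] => 0
  | c :: l => TT l + if c then 3 * EE l else 0

def ct : List Bool → ℕ
  | [] => 0
  | c :: l => ct l + if c then 1 else 0

lemma ct_app (l : List Bool) (c : Bool) : ct (l ++ [c]) = ct l + if c then 1 else 0 := by
  induction l with
  | nil => simp [ct]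
  | cons d l ih => simp only [List.cons_append, ct, ih]; omega

lemma EE_app (l : List Bool) (c : Bool) : EE (l ++ [c]) = EE l + 2 * ct (l ++ [c]) := by
  induction l with
  | nil => cases c <;> simp [EE, ct]
  | cons d l ih =>
    simp only [List.cons_append, EE, ct, ih, List.length_append, List.length_singleton]
    split_ifs <;> omega

lemma TT_app (l : List Bool) (c : Bool) :
    TT (l ++ [c]) + 3 * ct (l ++ [c]) = TT l + 3 * ct (l ++ [c]) ^ 2 := by
  induction l with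
  | nil => cases c <;> simp [TT, EE, ct]
  | cons d l ih =>
    simp only [List.cons_append, TT, ct, EE_app]
    split_ifs
    · nlinarith
    · simpa using ih

lemma ct_add (l : List Bool) : ct l + ct (l.map not) = l.length := by
  induction l with
  | nil => rfl
  | cons d l ih => cases d <;> simp [ct] <;> omega

def St (a b t s : ℝ) : Prop := ∃ R B P Q : ℝ, Inv a b R B ∧ t = R - a - 3 * P ∧
  s = B - b - 3 * Q ∧ R ≤ a ^ 3 + 3 * a * P ∧ B ≤ b ^ 3 + 3 * b * Q ∧ 0 ≤ P ∧ 0 ≤ Q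

lemma St.symm {a b t s : ℝ} (h : St a b t s) : St b a s t := by
  obtain ⟨R, B, P, Q, h1, h2, h3, h4, h5, h6, h7⟩ := h
  exact ⟨B, R, Q, P, h1.symm, h3, h2, h5, h4, h7, h6⟩

lemma St.step {a b t s : ℝ} (ha : 0 ≤ a) (hb : 0 ≤ b) (h : St a b t s) :
    St (a + 1) b (t + 3 * (a + 1) ^ 2 - 3 * (a + 1)) (s + 3 * b ^ 2 - 3 * b) := by
  obtain ⟨R, B, P, Q, h1, h2, h3, h4, h5, h6, h7⟩ := h
  exact ⟨_, _, P, Q + b, h1.step ha, by linarith, by linarith, by nlinarith, by nlinarith, h6,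
    by linarith⟩

lemma st_list (l : List Bool) : St (ct l) (ct (l.map not)) (TT l) (TT (l.map not)) := by
  induction l using List.reverseRecOn with
  | nil => exact ⟨0, 0, 0, 0, Or.inl ⟨0, by simp [ct]⟩, by simp [ct, TT]⟩
  | append_singleton l c ih =>
    have e1 : (TT (l ++ [c]) : ℝ) = TT l + 3 * (ct (l ++ [c]) : ℝ) ^ 2 - 3 * ct (l ++ [c]) := by
      have := TT_app l c
      have : (TT (l ++ [c]) : ℝ) + 3 * ct (l ++ [c]) = TT l + 3 * (ct (l ++ [c]) : ℝ) ^ 2 := by
        exact_mod_cast this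
      linarith
    have e2 : (TT (l.map not ++ [!c]) : ℝ) = TT (l.map not) +
        3 * (ct (l.map not ++ [!c]) : ℝ) ^ 2 - 3 * ct (l.map not ++ [!c]) := by
      have := TT_app (l.map not) (!c)
      have : (TT (l.map not ++ [!c]) : ℝ) + 3 * ct (l.map not ++ [!c]) = TT (l.map not) +
        3 * (ct (l.map not ++ [!c]) : ℝ) ^ 2 := by exact_mod_cast this
      linarith
    rw [List.map_append, List.map_singleton, e1, e2, ct_app, ct_app]
    cases c
    · simpa using (ih.symm.step (by positivity) (by positivity)).symm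
    · simpa using ih.step (by positivity) (by positivity)

lemma list_bound (l : List Bool) : (TT l : ℝ) * TT (l.map not) ≤
    gam * ((l.length : ℝ) * ((l.length : ℝ) ^ 2 - 1)) ^ 2 := by
  obtain ⟨R, B, P, Q, h1, h2, h3, h4, h5, h6, h7⟩ := st_list l
  have hN : (ct l : ℝ) + ct (l.map not) = l.length := by exact_mod_cast ct_add l
  rcases Nat.eq_zero_or_pos l.length with h0 | h0
  · rw [List.length_eq_zero_iff] at h0
    subst h0
    simp [TT]
  have hN1 : (1 : ℝ) ≤ l.length := by exact_mod_cast h0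
  have t0 : (0 : ℝ) ≤ TT l := by positivity
  have s0 : (0 : ℝ) ≤ TT (l.map not) := by positivity
  have a0 : (0 : ℝ) ≤ ct l := by positivity
  have b0 : (0 : ℝ) ≤ ct (l.map not) := by positivity
  generalize (TT l : ℝ) = t at *
  generalize (TT (l.map not) : ℝ) = s at *
  generalize (ct l : ℝ) = a at *
  generalize (ct (l.map not) : ℝ) = b at *
  generalize (l.length : ℝ) = N at *
  have key : ∀ a P R t : ℝ, 0 ≤ a → a ≤ N → 0 ≤ P → t = R - a - 3 * P →
      R ≤ a ^ 3 + 3 * a * P → t * N ^ 2 ≤ R * (N ^ 2 - 1) := by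
    intro a P R t h1 h2 h3 h4 h5
    have k1 : a ^ 2 ≤ N ^ 2 := by nlinarith
    have k2 : a ≤ N ^ 2 := by nlinarith
    have k3 : a * a ^ 2 ≤ a * N ^ 2 := mul_le_mul_of_nonneg_left k1 h1
    have k4 : P * a ≤ P * N ^ 2 := mul_le_mul_of_nonneg_left k2 h3
    subst h4
    nlinarith
  have k1 := key a P R t a0 (by linarith) h6 h2 h4
  have k2 := key b Q B s b0 (by linarith) h7 h3 h5
  have k3 := h1.bound a0 b0 (by linarith) (by linarith)
  rw [hN] at k3
  have k4 : t * N ^ 2 * (s * N ^ 2) ≤ R * (N ^ 2 - 1) * (B * (N ^ 2 - 1)) :=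
    mul_le_mul k1 k2 (by positivity) (le_trans (by positivity) k1)
  have k5 : R * B * (N ^ 2 - 1) ^ 2 ≤ gam * N ^ 6 * (N ^ 2 - 1) ^ 2 :=
    mul_le_mul_of_nonneg_right k3 (by positivity)
  have k6 : t * s * N ^ 4 ≤ gam * (N * (N ^ 2 - 1)) ^ 2 * N ^ 4 := by nlinarith
  exact le_of_mul_le_mul_right k6 (by positivity)

end Pool.Agent.H.MP_52dd64_co
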