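import Mathlib
import Pool.Agent.H.MP_52dd64_co.A

set_option autoImplicit false

namespace Pool.Agent.H.MP_52dd64_co

open Finset Equiv

variable {n : ℕ}

def g (c : Fin n → Fin n → Bool) (x y : Fin n) : ℕ := if x ≠ y ∧ c x y = true then 1 else 0

def nt (c : Fin n → Fin n → Bool) : Fin n → Fin n → Bool := fun x y => !c x y

def Sy (c : Fin n → Fin n → Bool) : Prop := ∀ x y, c x y = c y x

lemma Sy.nt {c : Fin n → Fin n → Bool} (h : Sy c) : Sy (nt c) := fun x y => by
  simp only [MP_52dd64_co.nt, h x y]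

lemma nt_nt (c : Fin n → Fin n → Bool) : nt (nt c) = c := by
  funext x y; simp [nt]

lemma g_self (c : Fin n → Fin n → Bool) (x : Fin n) : g c x x = 0 := by simp [g]

lemma g_le (c : Fin n → Fin n → Bool) (x y : Fin n) : g c x y ≤ 1 := by
  unfold g; split_ifs <;> simp

lemma g_symm {c : Fin n → Fin n → Bool} (h : Sy c) (x y : Fin n) : g c x y = g c y x := by
  simp only [g, h x y, ne_comm]

def T (c : Fin n → Fin n → Bool) (W : Finset (Fin n)) : ℕ :=
  ∑ x ∈ W, ∑ y ∈ W, ∑ z ∈ W, g c x y * g c y z * g c x z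

def Wt (φ : Fin n → ℕ) (c : Fin n → Fin n → Bool) (W : Finset (Fin n)) : ℕ :=
  ∑ x ∈ W, ∑ y ∈ W, g c x y * (φ x + φ y)

def E (c : Fin n → Fin n → Bool) (W : Finset (Fin n)) : ℕ := ∑ x ∈ W, ∑ y ∈ W, g c x y

/-- shift towards `u` -/
def sh (u v : Fin n) (c : Fin n → Fin n → Bool) : Fin n → Fin n → Bool := fun x y =>
  if (x = u ∧ y ≠ u ∧ y ≠ v) ∨ (y = u ∧ x ≠ u ∧ x ≠ v) then c x y || c (swap u v x) (swap u v y)
  else if (x = v ∧ y ≠ u ∧ y ≠ v) ∨ (y = v ∧ x ≠ u ∧ x ≠ v) then
    c x y && c (swap u v x) (swap u v y)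
  else c x y

lemma sh_sy {u v : Fin n} {c : Fin n → Fin n → Bool} (h : Sy c) : Sy (sh u v c) := by
  intro x y
  simp only [sh, h x y, h (swap u v x) (swap u v y), or_comm]

lemma nt_sh {u v : Fin n} (huv : u ≠ v) (c : Fin n → Fin n → Bool) :
    nt (sh u v c) = sh v u (nt c) := by
  funext x y
  simp only [nt, sh, swap_comm v u]
  split_ifs <;> first | (simp; done) | (exfalso; grind)

section
variable {u v : Fin n} (huv : u ≠ v) {c : Fin n → Fin n → Bool} (hc : Sy c)
include huv hc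

lemma g_uv : g (sh u v c) u v = g c u v := by simp [g, sh, huv, huv.symm]

lemma g_uo {o : Fin n} (h1 : o ≠ u) (h2 : o ≠ v) :
    g (sh u v c) u o = max (g c u o) (g c v o) := by
  simp only [g, sh, swap_apply_left, swap_apply_of_ne_of_ne h1 h2]
  cases c u o <;> cases c v o <;> simp [h1, h2, h1.symm, h2.symm]

lemma g_vo {o : Fin n} (h1 : o ≠ u) (h2 : o ≠ v) :
    g (sh u v c) v o = min (g c u o) (g c v o) := by
  simp only [g, sh, swap_apply_right, swap_apply_of_ne_of_ne h1 h2]
  cases c u o <;> cases c v o <;> simp [h1, h2, h1.symm, h2.symm, huv.symm]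

lemma g_oo {o p : Fin n} (h1 : o ≠ u) (h2 : o ≠ v) (h3 : p ≠ u) (h4 : p ≠ v) :
    g (sh u v c) o p = g c o p := by simp [g, sh, h1, h2, h3, h4]

lemma pair_ineq {a b a' b' : ℕ} (ha : a ≤ 1) (hb : b ≤ 1) (ha' : a' ≤ 1) (hb' : b' ≤ 1) :
    a * b + a' * b' ≤ max a a' * max b b' + min a a' * min b b' := by
  interval_cases a <;> interval_cases b <;> interval_cases a' <;> interval_cases b' <;> simp

lemma tri_pt (x y z : Fin n) :
    g c x y * g c y z * g c x z + g c (swap u v x) (swap u v y) * g c (swap u v y) (swap u v z) *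
      g c (swap u v x) (swap u v z) ≤
    g (sh u v c) x y * g (sh u v c) y z * g (sh u v c) x z +
      g (sh u v c) (swap u v x) (swap u v y) * g (sh u v c) (swap u v y) (swap u v z) *
      g (sh u v c) (swap u v x) (swap u v z) := by
  have hs := sh_sy (u := u) (v := v) hc
  have tri : ∀ w : Fin n, w = u ∨ w = v ∨ (w ≠ u ∧ w ≠ v) := fun w => by tauto
  have b : ∀ x y, g c x y = 0 ∨ g c x y = 1 := fun x y => by have := g_le c x y; omega
  have e1 := g_uv huv hc
  have e2 : g (sh u v c) v u = g c u v := by rw [g_symm hs, e1]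
  have e3 : g c v u = g c u v := g_symm hc _ _
  have f : ∀ o, o ≠ u → o ≠ v → swap u v o = o ∧ g (sh u v c) u o = max (g c u o) (g c v o) ∧
      g (sh u v c) o u = max (g c u o) (g c v o) ∧ g (sh u v c) v o = min (g c u o) (g c v o) ∧
      g (sh u v c) o v = min (g c u o) (g c v o) ∧ g c o u = g c u o ∧ g c o v = g c v o :=
    fun o h1 h2 => ⟨swap_apply_of_ne_of_ne h1 h2, g_uo huv hc h1 h2,
      by rw [g_symm hs, g_uo huv hc h1 h2], g_vo huv hc h1 h2,
      by rw [g_symm hs, g_vo huv hc h1 h2], g_symm hc _ _, g_symm hc _ _⟩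
  rcases tri x with hx | hx | hx <;> rcases tri y with hy | hy | hy <;>
    rcases tri z with hz | hz | hz
  all_goals
    first
    | (simp only [hx, hy, hz, g_self, swap_apply_left, swap_apply_right, zero_mul, mul_zero,
        le_refl, Nat.zero_le, add_zero]; done)
    | (simp only [hx, hy, g_self, swap_apply_left, swap_apply_right, zero_mul, mul_zero,
        le_refl, Nat.zero_le, add_zero]; done)
    | (simp only [hx, hz, g_self, swap_apply_left, swap_apply_right, zero_mul, mul_zero,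
        le_refl, Nat.zero_le, add_zero]; done)
    | (simp only [hy, hz, g_self, swap_apply_left, swap_apply_right, zero_mul, mul_zero,
        le_refl, Nat.zero_le, add_zero]; done)
    | skip
  all_goals
    first
    | (simp only [f x hx.1 hx.2, f y hy.1 hy.2, f z hz.1 hz.2, g_oo huv hc hx.1 hx.2 hy.1 hy.2,
        g_oo huv hc hx.1 hx.2 hz.1 hz.2, g_oo huv hc hy.1 hy.2 hz.1 hz.2, le_refl]; done)
    | (simp only [hx, swap_apply_left, swap_apply_right, f y hy.1 hy.2, f z hz.1 hz.2,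
        g_oo huv hc hy.1 hy.2 hz.1 hz.2]
       rcases b u y with h1 | h1 <;> rcases b v y with h2 | h2 <;> rcases b u z with h3 | h3 <;>
         rcases b v z with h4 | h4 <;> simp [h1, h2, h3, h4])
    | (simp only [hy, swap_apply_left, swap_apply_right, f x hx.1 hx.2, f z hz.1 hz.2,
        g_oo huv hc hx.1 hx.2 hz.1 hz.2]
       rcases b u x with h1 | h1 <;> rcases b v x with h2 | h2 <;> rcases b u z with h3 | h3 <;>
         rcases b v z with h4 | h4 <;> simp [h1, h2, h3, h4])
    | (simp only [hz, swap_apply_left, swap_apply_right, f x hx.1 hx.2, f y hy.1 hy.2,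
        g_oo huv hc hx.1 hx.2 hy.1 hy.2]
       rcases b u x with h1 | h1 <;> rcases b v x with h2 | h2 <;> rcases b u y with h3 | h3 <;>
         rcases b v y with h4 | h4 <;> simp [h1, h2, h3, h4])
    | (simp only [hx, hy, swap_apply_left, swap_apply_right, f z hz.1 hz.2, e1, e2, e3]
       rcases b u z with h1 | h1 <;> rcases b v z with h2 | h2 <;> simp [h1, h2])
    | (simp only [hx, hz, swap_apply_left, swap_apply_right, f y hy.1 hy.2, e1, e2, e3]
       rcases b u y with h1 | h1 <;> rcases b v y with h2 | h2 <;> simp [h1, h2])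
    | (simp only [hy, hz, swap_apply_left, swap_apply_right, f x hx.1 hx.2, e1, e2, e3]
       rcases b u x with h1 | h1 <;> rcases b v x with h2 | h2 <;> simp [h1, h2])

lemma wt_pt (φ : Fin n → ℕ) (hφ : φ u ≤ φ v) (x y : Fin n) :
    g (sh u v c) x y * (φ x + φ y) + g (sh u v c) (swap u v x) (swap u v y) *
      (φ (swap u v x) + φ (swap u v y)) ≤
    g c x y * (φ x + φ y) + g c (swap u v x) (swap u v y) * (φ (swap u v x) + φ (swap u v y)) ∧
    g (sh u v c) x y + g (sh u v c) (swap u v x) (swap u v y) =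
      g c x y + g c (swap u v x) (swap u v y) := by
  have hs := sh_sy (u := u) (v := v) hc
  have tri : ∀ w : Fin n, w = u ∨ w = v ∨ (w ≠ u ∧ w ≠ v) := fun w => by tauto
  have b : ∀ x y, g c x y = 0 ∨ g c x y = 1 := fun x y => by have := g_le c x y; omega
  have e1 := g_uv huv hc
  have e2 : g (sh u v c) v u = g c u v := by rw [g_symm hs, e1]
  have e3 : g c v u = g c u v := g_symm hc _ _
  have f : ∀ o, o ≠ u → o ≠ v → swap u v o = o ∧ g (sh u v c) u o = max (g c u o) (g c v o) ∧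
      g (sh u v c) o u = max (g c u o) (g c v o) ∧ g (sh u v c) v o = min (g c u o) (g c v o) ∧
      g (sh u v c) o v = min (g c u o) (g c v o) ∧ g c o u = g c u o ∧ g c o v = g c v o :=
    fun o h1 h2 => ⟨swap_apply_of_ne_of_ne h1 h2, g_uo huv hc h1 h2,
      by rw [g_symm hs, g_uo huv hc h1 h2], g_vo huv hc h1 h2,
      by rw [g_symm hs, g_vo huv hc h1 h2], g_symm hc _ _, g_symm hc _ _⟩
  rcases tri x with hx | hx | hx <;> rcases tri y with hy | hy | hy
  all_goals
    first
    | (simp only [hx, hy, g_self, swap_apply_left, swap_apply_right, e1, e2, e3, le_refl,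
        and_self]; done)
    | (simp only [f x hx.1 hx.2, f y hy.1 hy.2, g_oo huv hc hx.1 hx.2 hy.1 hy.2, le_refl,
        and_self]; done)
    | (simp only [hx, swap_apply_left, swap_apply_right, f y hy.1 hy.2]
       rcases b u y with h1 | h1 <;> rcases b v y with h2 | h2 <;> simp [h1, h2] <;> omega)
    | (simp only [hy, swap_apply_left, swap_apply_right, f x hx.1 hx.2]
       rcases b u x with h1 | h1 <;> rcases b v x with h2 | h2 <;> simp [h1, h2] <;> omega)

end

lemma sum_swap {u v : Fin n} {W : Finset (Fin n)} (hu : u ∈ W) (hv : v ∈ W) (f : Fin n → ℕ) :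
    ∑ x ∈ W, f (swap u v x) = ∑ x ∈ W, f x := by
  refine sum_equiv (swap u v) (fun x => ?_) fun _ _ => rfl
  rw [swap_apply_def]
  split_ifs with h1 h2
  · simp [h1, hu, hv]
  · simp [h2, hu, hv]
  · rfl

lemma sum2_swap {u v : Fin n} {W : Finset (Fin n)} (hu : u ∈ W) (hv : v ∈ W)
    (f : Fin n → Fin n → ℕ) :
    ∑ x ∈ W, ∑ y ∈ W, (f x y + f (swap u v x) (swap u v y)) = 2 * ∑ x ∈ W, ∑ y ∈ W, f x y := by
  simp only [sum_add_distrib]
  rw [sum_congr rfl fun x _ => sum_swap hu hv (f (swap u v x)),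
    sum_swap hu hv (fun x => ∑ y ∈ W, f x y), two_mul]

lemma sum3_swap {u v : Fin n} {W : Finset (Fin n)} (hu : u ∈ W) (hv : v ∈ W)
    (f : Fin n → Fin n → Fin n → ℕ) :
    ∑ x ∈ W, ∑ y ∈ W, ∑ z ∈ W, (f x y z + f (swap u v x) (swap u v y) (swap u v z)) =
      2 * ∑ x ∈ W, ∑ y ∈ W, ∑ z ∈ W, f x y z := by
  rw [← sum2_swap hu hv (fun x y => ∑ z ∈ W, f x y z)]
  refine sum_congr rfl fun x _ => sum_congr rfl fun y _ => ?_
  rw [sum_add_distrib, sum_swap hu hv (f (swap u v x) (swap u v y))]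

lemma T_sh {u v : Fin n} (huv : u ≠ v) {c : Fin n → Fin n → Bool} (hc : Sy c)
    {W : Finset (Fin n)} (hu : u ∈ W) (hv : v ∈ W) : T c W ≤ T (sh u v c) W := by
  have h1 := sum3_swap hu hv (fun x y z => g c x y * g c y z * g c x z)
  have h2 := sum3_swap hu hv (fun x y z => g (sh u v c) x y * g (sh u v c) y z * g (sh u v c) x z)
  have := sum_le_sum (s := W) fun x _ => sum_le_sum (s := W) fun y _ =>
    sum_le_sum (s := W) fun z _ => tri_pt huv hc x y z
  rw [h1, h2] at this
  unfold T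
  omega

lemma E_sh {u v : Fin n} (huv : u ≠ v) {c : Fin n → Fin n → Bool} (hc : Sy c)
    {W : Finset (Fin n)} (hu : u ∈ W) (hv : v ∈ W) : E (sh u v c) W = E c W := by
  have h1 := sum2_swap hu hv (g c)
  have h2 := sum2_swap hu hv (g (sh u v c))
  have := sum_congr (s₁ := W) rfl fun x _ => sum_congr (s₁ := W) rfl fun y _ =>
    (wt_pt huv hc (fun _ => 0) le_rfl x y).2
  rw [h1, h2] at this
  unfold E
  omega

lemma Wt_sh {u v o : Fin n} (huv : u < v) {c : Fin n → Fin n → Bool} (hc : Sy c)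
    {W : Finset (Fin n)} (hu : u ∈ W) (hv : v ∈ W) (ho : o ∈ W) (h1 : o ≠ u) (h2 : o ≠ v)
    (h3 : c v o = true) (h4 : c u o = false) :
    Wt (fun x => x) (sh u v c) W < Wt (fun x => x) c W := by
  have e1 := sum2_swap hu hv (fun x y => g c x y * ((x : ℕ) + y))
  have e2 := sum2_swap hu hv (fun x y => g (sh u v c) x y * ((x : ℕ) + y))
  have pt := fun x y => (wt_pt huv.ne hc (fun x => x) huv.le x y).1
  have := sum_lt_sum (s := W) (fun x _ => sum_le_sum (s := W) fun y _ => pt x y)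
    ⟨v, hv, sum_lt_sum (fun y _ => pt v y) ⟨o, ho, by
      have a1 : g c v o = 1 := by simp [g, h3, h2.symm]
      have a2 : g c u o = 0 := by simp [g, h4]
      have : (u : ℕ) < v := huv
      simp only [swap_apply_right, swap_apply_of_ne_of_ne h1 h2, g_uo huv.ne hc h1 h2,
        g_vo huv.ne hc h1 h2, a1, a2]
      simp
      omega⟩⟩
  rw [e1, e2] at this
  simp only [Wt]
  omega

lemma exists_shifted (W : Finset (Fin n)) (c : Fin n → Fin n → Bool) (hc : Sy c) :
    ∃ c', Sy c' ∧ T c W ≤ T c' W ∧ T (nt c) W ≤ T (nt c') W ∧ E c W = E c' W ∧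
      E (nt c) W = E (nt c') W ∧ ∀ u ∈ W, ∀ v ∈ W, ∀ o ∈ W, u < v → o ≠ u → o ≠ v →
        c' v o = true → c' u o = true := by
  induction hp : Wt (fun x => x) c W using Nat.strong_induction_on generalizing c with
  | _ k ih =>
    by_cases h : ∀ u ∈ W, ∀ v ∈ W, ∀ o ∈ W, u < v → o ≠ u → o ≠ v → c v o = true → c u o = true
    · exact ⟨c, hc, le_rfl, le_rfl, rfl, rfl, h⟩
    · push Not at h
      obtain ⟨u, hu, v, hv, o, ho, huv, h1, h2, h3, h4⟩ := h
      obtain ⟨c', a1, a2, a3, a4, a5, a6⟩ := ih _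
        (hp ▸ Wt_sh huv hc hu hv ho h1 h2 h3 (by simpa using h4)) (sh u v c) (sh_sy hc) rfl
      rw [nt_sh huv.ne] at a3 a5
      exact ⟨c', a1, (T_sh huv.ne hc hu hv).trans a2, (T_sh huv.ne' hc.nt hv hu).trans a3,
        (E_sh huv.ne hc hu hv).symm.trans a4, (E_sh huv.ne' hc.nt hv hu).symm.trans a5, a6⟩

lemma E_insert {c : Fin n → Fin n → Bool} (hc : Sy c) {W : Finset (Fin n)} {v : Fin n}
    (hv : v ∉ W) : E c (insert v W) = E c W + 2 * ∑ x ∈ W, g c v x := by
  unfold E
  simp only [sum_insert hv, sum_add_distrib, g_self, g_symm hc _ v]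
  ring

lemma T_insert {c : Fin n → Fin n → Bool} (hc : Sy c) {W : Finset (Fin n)} {v : Fin n}
    (hv : v ∉ W) :
    T c (insert v W) = T c W + 3 * ∑ x ∈ W, ∑ y ∈ W, g c v x * g c v y * g c x y := by
  unfold T
  simp only [sum_insert hv, sum_add_distrib, g_self, g_symm hc _ v, zero_mul, mul_zero,
    sum_const_zero, zero_add]
  have e1 : ∑ y ∈ W, ∑ z ∈ W, g c v y * g c y z * g c v z =
      ∑ x ∈ W, ∑ y ∈ W, g c v x * g c v y * g c x y :=
    sum_congr rfl fun x _ => sum_congr rfl fun y _ => by ring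
  have e2 : ∑ x ∈ W, ∑ y ∈ W, g c x y * g c v y * g c v x =
      ∑ x ∈ W, ∑ y ∈ W, g c v x * g c v y * g c x y :=
    sum_congr rfl fun x _ => sum_congr rfl fun y _ => by ring
  rw [e1, e2]
  ring

def Gd (c : Fin n → Fin n → Bool) (W : Finset (Fin n)) (l : List Bool) : Prop :=
  T c W ≤ TT l ∧ E c W ≤ EE l

lemma Gd.tr {c : Fin n → Fin n → Bool} (hc : Sy c) {W : Finset (Fin n)} {v : Fin n} (hv : v ∉ W)
    {l : List Bool} (hl : l.length + 1 = W.card) (h : Gd c W l) :
    Gd c (insert v W) (true :: l) := by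
  have e1 : ∑ x ∈ W, g c v x ≤ W.card := by
    simpa using sum_le_card_nsmul W (g c v) 1 fun x _ => g_le c v x
  have e2 : ∑ x ∈ W, ∑ y ∈ W, g c v x * g c v y * g c x y ≤ E c W :=
    sum_le_sum fun x _ => sum_le_sum fun y _ => by
      have := Nat.mul_le_mul (g_le c v x) (g_le c v y)
      simpa using Nat.mul_le_mul_right (g c x y) this
  obtain ⟨h1, h2⟩ := h
  refine ⟨?_, ?_⟩
  · rw [T_insert hc hv]; simp only [TT, if_true]; omega
  · rw [E_insert hc hv]; simp only [EE, if_true]; omega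

lemma Gd.fa {c : Fin n → Fin n → Bool} (hc : Sy c) {W : Finset (Fin n)} {v : Fin n} (hv : v ∉ W)
    (h0 : ∀ x ∈ W, c v x = false) {l : List Bool} (h : Gd c W l) :
    Gd c (insert v W) (false :: l) := by
  have e : ∀ x ∈ W, g c v x = 0 := fun x hx => by simp [g, h0 x hx]
  obtain ⟨h1, h2⟩ := h
  refine ⟨?_, ?_⟩
  · rw [T_insert hc hv, sum_eq_zero fun x hx => by simp [e x hx]]; simpa [TT] using h1
  · rw [E_insert hc hv, sum_eq_zero e]; simpa [EE] using h2

lemma exists_list (k : ℕ) : ∀ (W : Finset (Fin n)) (c : Fin n → Fin n → Bool), Sy c →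
    W.card = k + 1 → ∃ l : List Bool, l.length = k ∧ Gd c W l ∧ Gd (nt c) W (l.map not) := by
  induction k with
  | zero =>
    intro W c _ hW
    obtain ⟨v, rfl⟩ := card_eq_one.1 hW
    exact ⟨[], rfl, by simp [Gd, T, E, g_self], by simp [Gd, T, E, g_self]⟩
  | succ k ih =>
    intro W c0 hc0 hW
    obtain ⟨c, hc, a2, a3, a4, a5, a6⟩ := exists_shifted W c0 hc0
    suffices ∃ l : List Bool, l.length = k + 1 ∧ Gd c W l ∧ Gd (nt c) W (l.map not) by
      obtain ⟨l, h1, h2, h3⟩ := this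
      exact ⟨l, h1, ⟨a2.trans h2.1, a4 ▸ h2.2⟩, ⟨a3.trans h3.1, a5 ▸ h3.2⟩⟩
    have hne : W.Nonempty := by rw [← card_pos]; omega
    have hm := W.min'_mem hne
    have hM := W.max'_mem hne
    have hlt : W.min' hne < W.max' hne := W.min'_lt_max'_of_card (by omega)
    by_cases h : c (W.max' hne) (W.min' hne) = true
    · obtain ⟨l, h1, h2, h3⟩ := ih (W.erase (W.min' hne)) c hc (by rw [card_erase_of_mem hm]; omega)
      refine ⟨true :: l, by simp [h1], ?_, ?_⟩
      · have := h2.tr hc (notMem_erase (W.min' hne) W) (by rw [card_erase_of_mem hm]; omega)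
        rwa [insert_erase hm] at this
      · have := h3.fa hc.nt (notMem_erase (W.min' hne) W) fun x hx => by
          rw [mem_erase] at hx
          simp only [nt, Bool.not_eq_false']
          rw [hc]
          by_cases e : x = W.max' hne
          · rw [e]; exact h
          · exact a6 x hx.2 _ hM _ hm (lt_of_le_of_ne (W.le_max' x hx.2) e) hx.1.symm hlt.ne h
        rwa [insert_erase hm] at this
    · obtain ⟨l, h1, h2, h3⟩ := ih (W.erase (W.max' hne)) c hc (by rw [card_erase_of_mem hM]; omega)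
      refine ⟨false :: l, by simp [h1], ?_, ?_⟩
      · have := h2.fa hc (notMem_erase (W.max' hne) W) fun x hx => by
          rw [mem_erase] at hx
          by_contra e'
          simp only [Bool.not_eq_false] at e'
          by_cases e : x = W.min' hne
          · rw [e] at e'; exact h e'
          · rw [hc] at e' h
            exact h (a6 _ hm x hx.2 _ hM (lt_of_le_of_ne (W.min'_le x hx.2) (Ne.symm e)) hlt.ne'
              hx.1.symm e')
        rwa [insert_erase hM] at this
      · have := h3.tr hc.nt (notMem_erase (W.max' hne) W)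
          (by rw [card_erase_of_mem hM, List.length_map]; omega)
        rwa [insert_erase hM] at this

lemma six_le (c : Fin n → Fin n → Bool) (A : Finset (Finset (Fin n))) (hA : ∀ a ∈ A, a.card = 3)
    (h : ∀ a ∈ A, ∀ x ∈ a, ∀ y ∈ a, x ≠ y → c x y = true) : 6 * A.card ≤ T c univ := by
  have e : T c univ = ∑ p : Fin n × Fin n × Fin n, g c p.1 p.2.1 * g c p.2.1 p.2.2 * g c p.1 p.2.2 := by
    simp only [T, Fintype.sum_prod_type]
  let D : Finset (Fin n) → Finset (Fin n × Fin n × Fin n) := fun a =>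
    univ.filter fun p => ({p.1, p.2.1, p.2.2} : Finset (Fin n)) = a
  have d1 : ∀ a ∈ A, 6 ≤ (D a).card := by
    intro a ha
    obtain ⟨x, y, z, h1, h2, h3, rfl⟩ := card_eq_three.1 (hA a ha)
    have : ({(x, y, z), (x, z, y), (y, x, z), (y, z, x), (z, x, y), (z, y, x)} :
        Finset (Fin n × Fin n × Fin n)) ⊆ D {x, y, z} := by
      intro p hp
      simp only [mem_insert, mem_singleton] at hp
      simp only [D, mem_filter, mem_univ, true_and]
      rcases hp with rfl | rfl | rfl | rfl | rfl | rfl <;> ext w <;> simp <;> tauto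
    refine le_trans (le_of_eq ?_) (card_le_card this)
    simp [card_insert_of_notMem, h1, h2, h3, h1.symm, h2.symm, h3.symm]
  have d2 : (A.biUnion D).card = ∑ a ∈ A, (D a).card := by
    refine card_biUnion fun a _ b _ hab => ?_
    rw [Function.onFun, disjoint_left]
    intro p h1 h2
    simp only [D, mem_filter] at h1 h2
    exact hab (h1.2.symm.trans h2.2)
  have d3 : ∑ p ∈ A.biUnion D, g c p.1 p.2.1 * g c p.2.1 p.2.2 * g c p.1 p.2.2 =
      (A.biUnion D).card := by
    rw [card_eq_sum_ones]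
    refine sum_congr rfl fun p hp => ?_
    obtain ⟨a, ha, hp⟩ := mem_biUnion.1 hp
    obtain ⟨x, y, z⟩ := p
    simp only [D, mem_filter, mem_univ, true_and] at hp
    have h3 := hA a ha
    have h4 := h a ha
    rw [← hp] at h3 h4
    obtain ⟨k1, k2, k3⟩ := card_triple_eq_three_iff.1 h3
    simp [g, k1, k2, k3, h4 x (by simp) y (by simp) k1, h4 x (by simp) z (by simp) k2,
      h4 y (by simp) z (by simp) k3]
  have d4 := card_nsmul_le_sum A (fun a => (D a).card) 6 d1
  rw [e]
  refine le_trans ?_ (sum_le_sum_of_subset (subset_univ (A.biUnion D)))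
  rw [d3, d2, mul_comm]
  simpa using d4

theorem main (hn : 1 ≤ n) (A B : Finset (Finset (Fin n))) (hA : ∀ a ∈ A, a.card = 3)
    (hB : ∀ b ∈ B, b.card = 3) (h : ∀ a ∈ A, ∀ b ∈ B, (a ∩ b).card ≤ 1) :
    ((A.card * B.card : ℕ) : ℝ) ≤ gam * ((n.choose 3 : ℕ) : ℝ) ^ 2 := by
  let c : Fin n → Fin n → Bool := fun x y => decide (∃ a ∈ A, x ∈ a ∧ y ∈ a)
  have hc : Sy c := fun x y => by simp only [c, and_comm]
  have h1 := six_le c A hA fun a ha x hx y hy _ => by
    simp only [c, decide_eq_true_eq]; exact ⟨a, ha, hx, hy⟩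
  have h2 := six_le (nt c) B hB fun b hb x hx y hy hxy => by
    simp only [nt, c, Bool.not_eq_true', decide_eq_false_iff_not]
    rintro ⟨a, ha, hx', hy'⟩
    exact hxy (card_le_one.1 (h a ha b hb) x (mem_inter.2 ⟨hx', hx⟩) y (mem_inter.2 ⟨hy', hy⟩))
  obtain ⟨k, rfl⟩ : ∃ k, n = k + 1 := ⟨n - 1, by omega⟩
  obtain ⟨l, hl, g1, g2⟩ := exists_list k univ c hc (by simp)
  have b := list_bound l
  rw [hl] at b
  have e : (k : ℝ) * ((k : ℝ) ^ 2 - 1) = 6 * ((k + 1).choose 3 : ℕ) := by
    have := Nat.cast_choose_two ℝ k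
    have t : ∀ m : ℕ, (6 : ℝ) * ((m + 1).choose 3 : ℕ) = (m : ℝ) * ((m : ℝ) ^ 2 - 1) := by
      intro m
      induction m with
      | zero => simp
      | succ m ih =>
        rw [Nat.choose_succ_succ' (m + 1) 2, Nat.cast_add, mul_add, ih, Nat.cast_choose_two]
        push_cast; ring
    exact (t k).symm
  rw [e] at b
  have k1 : 6 * A.card * (6 * B.card) ≤ TT l * TT (l.map not) :=
    Nat.mul_le_mul (h1.trans g1.1) (h2.trans g2.1)
  have k2 : (6 * A.card * (6 * B.card) : ℝ) ≤ TT l * TT (l.map not) := by exact_mod_cast k1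
  push_cast
  nlinarith

end Pool.Agent.H.MP_52dd64_co
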